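import Mathlib
import Pool.Agent.Helper11.MT.Optim

/-!
Module OPT2 for MP_be2988_nt: helper11's optimisation theorem with an arbitrary shift `κ ≥ 1`
in the weights `p - κ` (instead of `κ = k`), provided that all primes `≤ 2 κ` divide the modulus.
The proof is helper11's proof; only the shift changes.
-/

open Finset

namespace Pool.Agent.Helper9.Opt2

open Pool.Agent.Helper11.MT Pool.Agent.Helper11.MT.Opt

/-- The quadratic form of the denominator, shift `κ`. -/
noncomputable def EE2 (κ : ℕ) {k W R : ℕ} (y : Finset (QT W R × Fin k) → ℝ) : ℝ :=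
  ∑ U : Finset (QT W R × Fin k), (y U) ^ 2 / gg κ U

/-- The vector `y^{(j)}`, shift `κ`. -/
noncomputable def yj2 (κ : ℕ) {k W R : ℕ} (y : Finset (QT W R × Fin k) → ℝ) (j : Fin k)
    (U : Finset (QT W R × Fin k)) : ℝ :=
  ∑ V ∈ (univ.filter (fun τ : QT W R × Fin k => τ.2 = j)).powerset, y (U ∪ V) / gg κ V

/-- The quadratic forms of the numerator, shift `κ`. -/
noncomputable def EEj2 (κ : ℕ) {k W R : ℕ} (y : Finset (QT W R × Fin k) → ℝ) (j : Fin k) : ℝ :=
  ∑ U ∈ (univ.filter (fun τ : QT W R × Fin k => τ.2 ≠ j)).powerset, (yj2 κ y j U) ^ 2 / gg κ U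

section weights

variable {k κ W R : ℕ} (gt : ℕ → ℝ)

lemma gg_col2 (U : Finset (QT W R × Fin k)) : gg κ U = ∏ i, gV κ (col U i) := by
  unfold gg gV
  exact prod_col (fun τ => (((τ.1 : ℕ) : ℝ) - κ)) U

variable (hk : 1 ≤ κ) (hWk : ∀ p : ℕ, p.Prime → p ≤ 2 * κ → p ∣ W)

include hk hWk in
lemma gg_pos2 (U : Finset (QT W R × Fin k)) : 0 < gg κ U := by
  rw [gg_col2]
  exact Finset.prod_pos (fun i _ => gV_pos hk hWk _)

variable (h0 : ∀ n, 0 ≤ gt n) (h1 : ∀ n, gt n ≤ 1) (hanti : ∀ m n, m ≤ n → gt n ≤ gt m)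
  (hone : gt 1 = 1)

lemma sum_pow_G2' : ∑ f : Fin k → Finset (QT W R), ∏ i, FF gt κ (f i) = (G2 gt κ W R) ^ k := by
  unfold G2
  rw [Fintype.sum_pow]


lemma prod_FF' (U : Finset (QT W R × Fin k)) :
    ∏ i, FF gt κ (col U i) = (∏ i, gt (nV (col U i))) ^ 2 / gg κ U := by
  unfold FF
  rw [Finset.prod_div_distrib, Finset.prod_pow, gg_col2]

include h0 hk hWk in
lemma EE_le' : EE2 κ (yy gt (k := k) (W := W) (R := R)) ≤ (G2 gt κ W R) ^ k := by
  rw [← sum_pow_G2', ← Equiv.sum_comp (colEquiv (k := k) (W := W) (R := R))]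
  unfold EE2
  apply Finset.sum_le_sum
  intro U _
  have e : ∏ i, FF gt κ ((colEquiv U) i) = (∏ i, gt (nV (col U i))) ^ 2 / gg κ U := prod_FF' gt U
  rw [e]
  have hg := gg_pos2 hk hWk U
  have hP : 0 ≤ ∏ i, gt (nV (col U i)) := Finset.prod_nonneg (fun i _ => h0 _)
  unfold yy
  gcongr
  split_ifs
  · rw [mul_one]
  · rw [mul_zero]; exact hP

include hone hk hWk in
lemma EE_pos' (hR : 1 ≤ R) : 0 < EE2 κ (yy gt (k := k) (W := W) (R := R)) := by
  unfold EE2
  apply Finset.sum_pos'
  · intro U _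
    have hg := gg_pos2 hk hWk U
    positivity
  · refine ⟨∅, Finset.mem_univ _, ?_⟩
    have hg := gg_pos2 hk hWk (∅ : Finset (QT W R × Fin k))
    have e : yy gt (∅ : Finset (QT W R × Fin k)) = 1 := by
      unfold yy
      have h2 : ∀ i, col (∅ : Finset (QT W R × Fin k)) i = ∅ := by
        intro i
        ext q
        simp [col]
      have h3 : nn (∅ : Finset (QT W R × Fin k)) = 1 := by simp [nn]
      rw [h3, if_pos hR]
      simp [h2, nV_empty, hone]
    rw [e]
    positivity

include hone in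
lemma sum_tt' (j i : Fin k) : ∑ V ∈ tt W R j i, FF gt κ V = if i = j then 1 else G2 gt κ W R := by
  unfold tt
  split_ifs
  · rw [Finset.sum_singleton]
    exact FF_empty gt hone
  · rfl

include hone in
lemma sum_ne_prod' (j : Fin k) :
    ∑ U ∈ (univ.filter (fun τ : QT W R × Fin k => τ.2 ≠ j)).powerset,
      ∏ i, FF gt κ (col U i) = (G2 gt κ W R) ^ (k - 1) := by
  rw [sum_ne j (fun f => ∏ i, FF gt κ (f i)), ← Finset.prod_univ_sum]
  simp only [sum_tt' gt hone]
  rw [Finset.prod_ite]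
  simp only [Finset.prod_const_one, one_mul, Finset.prod_const]
  congr 1
  have : (univ.filter (fun i : Fin k => ¬ i = j)) = univ.erase j := by
    ext i; simp
  rw [this, Finset.card_erase_of_mem (Finset.mem_univ _)]
  simp

include hone in
lemma sum_ne_log' (j i0 : Fin k) :
    ∑ U ∈ (univ.filter (fun τ : QT W R × Fin k => τ.2 ≠ j)).powerset,
      Real.log (nV (col U i0)) * ∏ i, FF gt κ (col U i) =
        if i0 = j then 0 else mu gt κ W R * (G2 gt κ W R) ^ (k - 2) := by
  rw [sum_ne j (fun f => Real.log (nV (f i0)) * ∏ i, FF gt κ (f i))]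
  have e : ∀ f : Fin k → Finset (QT W R), Real.log (nV (f i0)) * ∏ i, FF gt κ (f i) =
      ∏ i, (if i = i0 then Real.log (nV (f i)) * FF gt κ (f i) else FF gt κ (f i)) := by
    intro f
    rw [← Finset.mul_prod_erase univ _ (Finset.mem_univ i0),
      ← Finset.mul_prod_erase univ (fun i => if i = i0 then Real.log (nV (f i)) * FF gt κ (f i)
        else FF gt κ (f i)) (Finset.mem_univ i0)]
    simp only [if_true]
    have : ∏ x ∈ univ.erase i0, (if x = i0 then Real.log (nV (f x)) * FF gt κ (f x)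
        else FF gt κ (f x)) = ∏ x ∈ univ.erase i0, FF gt κ (f x) := by
      apply Finset.prod_congr rfl
      intro x hx
      rw [if_neg (Finset.ne_of_mem_erase hx)]
    rw [this]
    ring
  simp only [e]
  rw [← Finset.prod_univ_sum (tt W R j)
    (fun i V => if i = i0 then Real.log (nV V) * FF gt κ V else FF gt κ V)]
  split_ifs with hij
  · subst hij
    apply Finset.prod_eq_zero (Finset.mem_univ i0)
    unfold tt
    simp [nV_empty]
  · have e2 : ∀ i : Fin k, ∑ V ∈ tt W R j i, (if i = i0 then Real.log (nV V) * FF gt κ V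
        else FF gt κ V) = if i = i0 then mu gt κ W R else if i = j then 1 else G2 gt κ W R := by
      intro i
      by_cases hi : i = i0
      · subst hi
        simp only [if_true]
        unfold tt
        rw [if_neg hij]
        rfl
      · simp only [if_neg hi]
        exact sum_tt' gt hone j i
    simp only [e2]
    rw [← Finset.mul_prod_erase univ _ (Finset.mem_univ i0)]
    simp only [if_true]
    congr 1
    rw [← Finset.mul_prod_erase (univ.erase i0) _
      (show j ∈ univ.erase i0 from Finset.mem_erase.2 ⟨Ne.symm hij, Finset.mem_univ _⟩)]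
    rw [if_neg (Ne.symm hij), if_pos rfl, one_mul]
    have : ∀ x ∈ (univ.erase i0).erase j, (if x = i0 then mu gt κ W R else
        if x = j then 1 else G2 gt κ W R) = G2 gt κ W R := by
      intro x hx
      rw [Finset.mem_erase, Finset.mem_erase] at hx
      rw [if_neg hx.2.1, if_neg hx.1]
    rw [Finset.prod_congr rfl this, Finset.prod_const]
    congr 1
    rw [Finset.card_erase_of_mem (Finset.mem_erase.2 ⟨Ne.symm hij, Finset.mem_univ _⟩),
      Finset.card_erase_of_mem (Finset.mem_univ _)]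
    simp
    omega

include hone in
lemma sum_ne_lognn' (j : Fin k) :
    ∑ U ∈ (univ.filter (fun τ : QT W R × Fin k => τ.2 ≠ j)).powerset,
      Real.log (nn U) * ∏ i, FF gt κ (col U i) =
        ((k : ℝ) - 1) * (mu gt κ W R * (G2 gt κ W R) ^ (k - 2)) := by
  have e : ∀ U : Finset (QT W R × Fin k), Real.log (nn U) * ∏ i, FF gt κ (col U i) =
      ∑ i0, Real.log (nV (col U i0)) * ∏ i, FF gt κ (col U i) := by
    intro U
    rw [← Finset.sum_mul, nn_col]
    push_cast
    rw [Real.log_prod]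
    intro i _
    have := nV_pos (col U i)
    positivity
  simp only [e]
  rw [Finset.sum_comm]
  simp only [sum_ne_log' gt hone j]
  rw [Finset.sum_ite]
  simp only [Finset.sum_const_zero, zero_add, Finset.sum_const, nsmul_eq_mul]
  congr 1
  have : (univ.filter (fun i : Fin k => ¬ i = j)) = univ.erase j := by
    ext i; simp
  rw [this, Finset.card_erase_of_mem (Finset.mem_univ _)]
  have hk1 : 1 ≤ k := by
    have := j.2
    omega
  rw [Finset.card_univ, Fintype.card_fin, Nat.cast_sub hk1]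
  simp

variable (X : ℕ) (hX : ∀ n, X < n → gt n = 0)

include hone hX in
lemma yj_eq' (j : Fin k) (U : Finset (QT W R × Fin k))
    (hU : U ∈ (univ.filter (fun τ : QT W R × Fin k => τ.2 ≠ j)).powerset) (hUX : nn U * X ≤ R) :
    yj2 κ (yy gt) j U = G1 gt κ W R * ∏ i, gt (nV (col U i)) := by
  have hcj : col U j = ∅ := by
    rw [mem_powerset_ne, Fintype.mem_piFinset] at hU
    have := hU j
    unfold tt at this
    rw [if_pos rfl, Finset.mem_singleton] at this
    exact this
  unfold yj2 G1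
  rw [Finset.sum_mul]
  symm
  apply Finset.sum_bij (fun V _ => V ×ˢ ({j} : Finset (Fin k)))
  · intro V _
    rw [Finset.mem_powerset]
    intro τ hτ
    rw [Finset.mem_product, Finset.mem_singleton] at hτ
    rw [Finset.mem_filter]
    exact ⟨Finset.mem_univ _, hτ.2⟩
  · intro a _ b _ hab
    ext q
    have := Finset.ext_iff.1 hab (q, j)
    simpa using this
  · intro V hV
    rw [Finset.mem_powerset] at hV
    refine ⟨col V j, Finset.mem_univ _, ?_⟩
    ext ⟨q, i⟩
    rw [Finset.mem_product, Finset.mem_singleton, mem_col]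
    constructor
    · rintro ⟨h2, h3⟩
      simp only at h2 h3
      subst h3
      exact h2
    · intro h2
      have h3 := hV h2
      rw [Finset.mem_filter] at h3
      have h4 : i = j := h3.2
      subst h4
      exact ⟨h2, rfl⟩
  · intro V _
    have hg : gg κ (V ×ˢ ({j} : Finset (Fin k))) = gV κ V := by
      unfold gg gV
      rw [Finset.prod_product]
      simp
    have hn : nn (V ×ˢ ({j} : Finset (Fin k))) = nV V := by
      unfold nn nV
      rw [Finset.prod_product]
      simp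
    have hdis : Disjoint U (V ×ˢ ({j} : Finset (Fin k))) := by
      rw [Finset.disjoint_left]
      rintro ⟨q, i⟩ h2 h3
      rw [Finset.mem_product, Finset.mem_singleton] at h3
      rw [Finset.mem_powerset] at hU
      have := hU h2
      rw [Finset.mem_filter] at this
      exact this.2 h3.2
    have hnn : nn (U ∪ V ×ˢ ({j} : Finset (Fin k))) = nn U * nV V := by
      rw [← hn]
      unfold nn
      rw [Finset.prod_union hdis]
    have hcol : ∀ i, col (U ∪ V ×ˢ ({j} : Finset (Fin k))) i = if i = j then V else col U i := by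
      intro i
      ext q
      rw [mem_col, Finset.mem_union, Finset.mem_product, Finset.mem_singleton]
      split_ifs with hij
      · subst hij
        simp only [and_true]
        constructor
        · rintro (h2 | h2)
          · have : q ∈ col U i := mem_col.2 h2
            rw [hcj] at this
            simp at this
          · exact h2
        · intro h2
          exact Or.inr h2
      · rw [mem_col]
        simp [hij]
    have hprod : ∏ i, gt (nV (col (U ∪ V ×ˢ ({j} : Finset (Fin k))) i)) =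
        gt (nV V) * ∏ i, gt (nV (col U i)) := by
      rw [← Finset.mul_prod_erase univ _ (Finset.mem_univ j),
        ← Finset.mul_prod_erase univ (fun i => gt (nV (col U i))) (Finset.mem_univ j)]
      rw [hcol j, if_pos rfl, hcj, nV_empty, hone, one_mul]
      congr 1
      apply Finset.prod_congr rfl
      intro i hi
      rw [hcol i, if_neg (Finset.ne_of_mem_erase hi)]
    unfold yy
    rw [hprod, hg, hnn]
    by_cases hVX : nV V ≤ X
    · rw [if_pos]
      · ring
      · calc nn U * nV V ≤ nn U * X := Nat.mul_le_mul_left _ hVX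
          _ ≤ R := hUX
    · rw [hX (nV V) (by omega)]
      ring

include hone hX hk hWk in
lemma EEj_ge' (j : Fin k) (hXR : Real.log X < Real.log R) (hX1 : 1 ≤ X) (hR1 : 1 ≤ R) :
    (G1 gt κ W R) ^ 2 * ((G2 gt κ W R) ^ (k - 1) -
      (((k : ℝ) - 1) * (mu gt κ W R * (G2 gt κ W R) ^ (k - 2))) / (Real.log R - Real.log X)) ≤
      EEj2 κ (yy gt (k := k) (W := W) (R := R)) j := by
  have hδ : 0 < Real.log R - Real.log X := by linarith
  rw [← sum_ne_lognn' gt hone j, ← sum_ne_prod' gt hone j]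
  unfold EEj2
  rw [Finset.sum_div, ← Finset.sum_sub_distrib, Finset.mul_sum]
  apply Finset.sum_le_sum
  intro U hU
  have hg := gg_pos2 hk hWk U
  rw [prod_FF']
  have hn := nn_pos U
  by_cases hUX : nn U * X ≤ R
  · rw [yj_eq' gt hone X hX j U hU hUX]
    have hlog : 0 ≤ Real.log (nn U) := Real.log_natCast_nonneg _
    have h2 : 0 ≤ Real.log (nn U) * ((∏ i, gt (nV (col U i))) ^ 2 / gg κ U) /
        (Real.log R - Real.log X) := by positivity
    have h3 : (G1 gt κ W R * ∏ i, gt (nV (col U i))) ^ 2 / gg κ U =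
        (G1 gt κ W R) ^ 2 * ((∏ i, gt (nV (col U i))) ^ 2 / gg κ U) := by
      rw [mul_pow]; ring
    rw [h3]
    apply mul_le_mul_of_nonneg_left _ (sq_nonneg _)
    linarith
  · have h2 : Real.log R - Real.log X ≤ Real.log (nn U) := by
      have h3 : (R : ℝ) ≤ nn U * X := by
        have : R ≤ nn U * X := by omega
        exact_mod_cast this
      have h4 : Real.log R ≤ Real.log (nn U * X) := by
        apply Real.log_le_log
        · exact_mod_cast hR1
        · exact h3
      rw [Real.log_mul (by positivity) (by positivity)] at h4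
      linarith
    have h5 : 0 ≤ (∏ i, gt (nV (col U i))) ^ 2 / gg κ U := by positivity
    have h6 : (∏ i, gt (nV (col U i))) ^ 2 / gg κ U ≤
        Real.log (nn U) * ((∏ i, gt (nV (col U i))) ^ 2 / gg κ U) /
        (Real.log R - Real.log X) := by
      rw [le_div_iff₀ hδ, mul_comm]
      exact mul_le_mul_of_nonneg_right h2 h5
    have h7 : (G1 gt κ W R) ^ 2 * ((∏ i, gt (nV (col U i))) ^ 2 / gg κ U -
        Real.log (nn U) * ((∏ i, gt (nV (col U i))) ^ 2 / gg κ U) /
        (Real.log R - Real.log X)) ≤ 0 := by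
      apply mul_nonpos_of_nonneg_of_nonpos (sq_nonneg _)
      linarith
    refine h7.trans ?_
    positivity

end weights

lemma yy_empty {k W R : ℕ} (gt : ℕ → ℝ) (hone : gt 1 = 1) (hR : 1 ≤ R) :
    yy gt (∅ : Finset (QT W R × Fin k)) = 1 := by
  unfold yy
  have h2 : ∀ i, col (∅ : Finset (QT W R × Fin k)) i = ∅ := by
    intro i
    ext q
    simp [col]
  have h3 : nn (∅ : Finset (QT W R × Fin k)) = 1 := by simp [nn]
  rw [h3, if_pos hR]
  simp [h2, nV_empty, hone]

/-- The optimisation theorem with shift `κ` and an explicit lower bound for `R`. -/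
theorem optim_gen (k κ : ℕ) (hk16 : 2 ^ 16 ≤ k) (hκ : 1 ≤ κ) (W : ℕ) (hW : 0 < W)
    (hWk : ∀ p : ℕ, p.Prime → p ≤ 2 * κ → p ∣ W) (R : ℕ)
    (hRexp : Real.exp (16 * k * (Nat.log 2 k + 4) / ((Nat.totient W : ℝ) / W)) ≤ R) :
    ∃ y : Finset (QT W R × Fin k) → ℝ,
      (∀ U, 0 ≤ y U) ∧ (∀ U, y U ≤ 1) ∧ (∀ U V, U ⊆ V → y V ≤ y U) ∧
      (∀ U, R < nn U → y U = 0) ∧ y ∅ = 1 ∧ 0 < EE2 κ y ∧
      ((Nat.totient W : ℝ) / W * Real.log R * (Nat.log 2 k / 640)) * EE2 κ y ≤
        ∑ j : Fin k, EEj2 κ y j := by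
  set L := Nat.log 2 k with hL
  have hk : 1 ≤ k := le_trans (by norm_num) hk16
  have hL16 : 16 ≤ L := by
    rw [hL]
    exact Nat.le_log_of_pow_le (by norm_num) hk16
  have h2L : 2 ^ L ≤ k := Nat.pow_log_le_self 2 (by omega)
  have hLr : (16 : ℝ) ≤ L := by exact_mod_cast hL16
  have hkr : (0 : ℝ) < k := by exact_mod_cast hk
  have h2Lr : (2 : ℝ) ^ L ≤ k := by exact_mod_cast h2L
  have hφ : (0 : ℝ) < Nat.totient W := by exact_mod_cast Nat.totient_pos.2 hW
  have hWr : (0 : ℝ) < W := by exact_mod_cast hW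
  set c : ℝ := (Nat.totient W : ℝ) / W with hc
  have hc0 : 0 < c := by positivity
  have hc1 : c ≤ 1 := by
    rw [hc, div_le_one hWr]
    exact_mod_cast Nat.totient_le W
  have hRpos : (0 : ℝ) < R := lt_of_lt_of_le (Real.exp_pos _) hRexp
  have hR1 : 1 ≤ R := by exact_mod_cast hRpos
  have hlogR : 16 * k * (L + 4) / c ≤ Real.log R := by
    rw [Real.le_log_iff_exp_le hRpos]
    exact hRexp
  have hlogR0 : 0 < Real.log R := lt_of_lt_of_le (by positivity) hlogR
  set ρ : ℝ := Real.log R / (8 * k * (L + 4)) with hρ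
  have hρ0 : 0 < ρ := by positivity
  set t : ℝ := c * ρ with ht
  have ht2 : 2 ≤ t := by
    rw [ht, hρ]
    rw [div_le_iff₀ hc0] at hlogR
    rw [← mul_div_assoc, le_div_iff₀ (by positivity)]
    linarith
  have hlogRρ : Real.log R = 8 * k * (L + 4) * ρ := by
    rw [hρ]
    field_simp
  have hHB : ∀ x, x ≤ R → c * Real.log x ≤ Opt.HH κ W R x :=
    fun x hx => Opt.HBound κ W R x hκ hW hWk hx
  clear_value t ρ c L
  -- the levels
  set xs : ℕ → ℕ := fun l => Nat.findGreatest
    (fun x => Opt.HH κ W R x ≤ 2 ^ (min l L) * t) R with hxs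
  have ht0 : 0 < t := by linarith
  have hmono : Monotone xs := by
    intro l l' hll
    rw [hxs]
    apply Nat.findGreatest_mono_left
    intro x hx
    refine le_trans hx ?_
    apply mul_le_mul_of_nonneg_right _ ht0.le
    exact pow_le_pow_right₀ (by norm_num) (min_le_min_right _ hll)
  have hclogR : c * Real.log R = 8 * k * (L + 4) * t := by
    rw [ht, hlogRρ]; ring
  have hHR : c * Real.log R ≤ Opt.HH κ W R R := hHB R le_rfl
  have ha : ∀ l, l ≤ L → Opt.HH κ W R (xs l) ≤ 2 ^ l * t := by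
    intro l hl
    have h0 : Opt.HH κ W R 0 ≤ 2 ^ (min l L) * t := by
      rw [Opt.HH_zero hκ hWk]
      positivity
    have := Nat.findGreatest_spec (P := fun x => Opt.HH κ W R x ≤ 2 ^ (min l L) * t)
      (Nat.zero_le R) h0
    rw [min_eq_left hl] at this
    simpa [hxs, min_eq_left hl] using this
  have hlt : ∀ l, l ≤ L → xs l < R := by
    intro l hl
    have h1 : xs l ≤ R := Nat.findGreatest_le R
    rcases Nat.lt_or_eq_of_le h1 with h | h
    · exact h
    · exfalso
      have h2 := ha l hl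
      rw [h] at h2
      have h3 : (2 : ℝ) ^ l ≤ k := (pow_le_pow_right₀ (by norm_num) hl).trans h2Lr
      have h4 : (2 : ℝ) ^ l * t ≤ k * t := by gcongr
      have h5 : 8 * k * (L + 4) * t ≤ k * t := by
        rw [← hclogR]
        linarith
      have h6 : (0 : ℝ) < k * t := by positivity
      nlinarith
  have hb : ∀ l, l ≤ L → 2 ^ l * t < Opt.HH κ W R (xs l + 1) := by
    intro l hl
    have h1 := hlt l hl
    have h2 := Nat.findGreatest_is_greatest (P := fun x => Opt.HH κ W R x ≤ 2 ^ (min l L) * t)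
      (n := R) (k := xs l + 1) (Nat.lt_succ_self _) (by omega)
    rw [min_eq_left hl] at h2
    exact lt_of_not_ge h2
  have hcc : ∀ l, l ≤ L → 2 ^ l * t / 2 ≤ Opt.HH κ W R (xs l) := by
    intro l hl
    have h1 := hb l hl
    have h2 := Opt.HH_succ (R := R) hκ hWk (xs l)
    have h3 : (1 : ℝ) ≤ 2 ^ l := one_le_pow₀ (by norm_num)
    have h4 : (2 : ℝ) ≤ 2 ^ l * t := by nlinarith
    linarith
  have hd : ∀ l, l ≤ L → Real.log (xs l) ≤ 2 ^ l * ρ := by
    intro l hl
    have h1 : c * Real.log (xs l) ≤ Opt.HH κ W R (xs l) :=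
      hHB (xs l) (hlt l hl).le
    have h2 := ha l hl
    have h3 : c * Real.log (xs l) ≤ c * (2 ^ l * ρ) := by
      refine h1.trans (h2.trans (le_of_eq ?_))
      rw [ht]; ring
    exact le_of_mul_le_mul_left h3 hc0
  have hxs0 : 1 ≤ xs 0 := by
    rw [hxs]
    apply Nat.le_findGreatest hR1
    rw [Opt.HH_one hκ hWk]
    simp
    linarith
  have hxsL : 1 ≤ xs L := hxs0.trans (hmono (Nat.zero_le L))
  clear_value xs
  -- the moments
  set g1 := Opt.G1 (Opt.gtf xs L) κ W R with hg1
  set g2 := Opt.G2 (Opt.gtf xs L) κ W R with hg2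
  set m2 := Opt.mu (Opt.gtf xs L) κ W R with hm2
  have hHnn : ∀ x, 0 ≤ Opt.HH κ W R x := by
    intro x
    have := Opt.HH_mono (R := R) hκ hWk (Nat.zero_le x)
    rwa [Opt.HH_zero hκ hWk] at this
  have e1 : L * t / 4 ≤ g1 := by
    rw [hg1, Opt.G1_eq]
    have h1 : L * t / 4 ≤ ∑ l ∈ range L, (1 / 2 : ℝ) ^ (l + 1) * Opt.HH κ W R (xs l) := by
      have h2 : ∑ l ∈ range L, (t / 4) ≤
          ∑ l ∈ range L, (1 / 2 : ℝ) ^ (l + 1) * Opt.HH κ W R (xs l) := by
        apply Finset.sum_le_sum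
        intro l hl
        have h3 := hcc l (Finset.mem_range.1 hl).le
        have h4 : (1 / 2 : ℝ) ^ (l + 1) * (2 ^ l * t / 2) = t / 4 := by
          rw [pow_succ, one_div, inv_pow]
          field_simp
          ring
        rw [← h4]
        gcongr
      rw [Finset.sum_const, Finset.card_range, nsmul_eq_mul] at h2
      linarith
    have h5 : 0 ≤ (1 / 2 : ℝ) ^ L * Opt.HH κ W R (xs L) := by
      have := hHnn (xs L)
      positivity
    linarith
  have e2 : g2 ≤ 2 * t := by
    rw [hg2]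
    refine (Opt.G2_le hκ hWk xs hmono L).trans ?_
    have h1 : ∑ l ∈ range (L + 1), (1 / 4 : ℝ) ^ l * Opt.HH κ W R (xs l) ≤
        ∑ l ∈ range (L + 1), (1 / 2 : ℝ) ^ l * t := by
      apply Finset.sum_le_sum
      intro l hl
      have h3 := ha l (Nat.lt_succ_iff.1 (Finset.mem_range.1 hl))
      have h4 : (1 / 4 : ℝ) ^ l * (2 ^ l * t) = (1 / 2 : ℝ) ^ l * t := by
        rw [← mul_assoc, ← mul_pow]
        norm_num
      rw [← h4]
      gcongr
    refine h1.trans ?_
    rw [← Finset.sum_mul]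
    apply mul_le_mul_of_nonneg_right _ ht0.le
    have h5 := sum_geometric_two_le (L + 1)
    exact h5
  have e3 : t / 2 ≤ g2 := by
    have h1 := Opt.G2_ge (R := R) hκ hWk xs hmono L
    have h2 := hcc 0 (Nat.zero_le _)
    rw [pow_zero, one_mul] at h2
    exact h2.trans h1
  have e4 : m2 ≤ (L + 1) * ρ * t := by
    rw [hm2]
    refine (Opt.mu_le hκ hWk xs hmono L ρ hρ0.le hd).trans ?_
    have h1 : ∑ l ∈ range (L + 1), (1 / 4 : ℝ) ^ l * (2 ^ l * ρ) * Opt.HH κ W R (xs l) ≤
        ∑ l ∈ range (L + 1), ρ * t := by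
      apply Finset.sum_le_sum
      intro l hl
      have h3 := ha l (Nat.lt_succ_iff.1 (Finset.mem_range.1 hl))
      have h4 : (1 / 4 : ℝ) ^ l * (2 ^ l * ρ) * (2 ^ l * t) = ρ * t := by
        have : (1 / 4 : ℝ) ^ l * 2 ^ l * 2 ^ l = 1 := by
          rw [← mul_pow, ← mul_pow]
          norm_num
        calc (1 / 4 : ℝ) ^ l * (2 ^ l * ρ) * (2 ^ l * t)
            = ((1 / 4 : ℝ) ^ l * 2 ^ l * 2 ^ l) * (ρ * t) := by ring
          _ = ρ * t := by rw [this, one_mul]
      rw [← h4]
      gcongr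
    refine h1.trans (le_of_eq ?_)
    rw [Finset.sum_const, Finset.card_range, nsmul_eq_mul]
    push_cast
    ring
  have e5 : k * (8 * L + 31) * ρ ≤ Real.log R - Real.log (xs L) := by
    have h1 := hd L le_rfl
    have h2 : (2 : ℝ) ^ L * ρ ≤ k * ρ := by gcongr
    have h3 : Real.log R - Real.log (xs L) ≥ 8 * k * (L + 4) * ρ - k * ρ := by
      rw [← hlogRρ]
      linarith
    have h4 : 8 * k * (L + 4) * ρ - k * ρ = k * (8 * L + 31) * ρ := by ring
    linarith
  have hδ : 0 < Real.log R - Real.log (xs L) := lt_of_lt_of_le (by positivity) e5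
  have hg2pos : 0 < g2 := lt_of_lt_of_le (by positivity) e3
  have hg1pos : 0 < g1 := lt_of_lt_of_le (by positivity) e1
  have e9 := fun j : Fin k => EEj_ge' (k := k) (κ := κ) (W := W) (R := R) (Opt.gtf xs L) hκ hWk
      (Opt.gtf_one xs hmono L hxs0) (xs L)
      (fun n hn => Opt.gtf_zero xs hmono L n hn) j (by linarith) hxsL hR1
  have e7 : EE2 κ (Opt.yy (Opt.gtf xs L) (k := k) (W := W) (R := R)) ≤ g2 ^ k :=
    EE_le' _ hκ hWk (Opt.gtf_nonneg xs L)
  rw [← hg1, ← hg2, ← hm2] at e9
  clear_value g1 g2 m2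
  -- the lower bound
  have e6 : ∀ j : Fin k, g1 ^ 2 * (g2 ^ (k - 1) / 2) ≤
      EEj2 κ (Opt.yy (Opt.gtf xs L) (k := k) (W := W) (R := R)) j := by
    intro j
    have h1 := e9 j
    refine le_trans ?_ h1
    apply mul_le_mul_of_nonneg_left _ (sq_nonneg _)
    have h2 : g2 ^ (k - 1) = g2 ^ (k - 2) * g2 := by
      rw [← pow_succ]
      congr 1
      have : 2 ≤ k := le_trans (by norm_num) hk16
      omega
    have h3 : (((k : ℝ) - 1) * (m2 * g2 ^ (k - 2))) / (Real.log R - Real.log (xs L)) ≤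
        g2 ^ (k - 1) / 2 := by
      rw [div_le_iff₀ hδ, h2]
      have h4 : ((k : ℝ) - 1) * m2 ≤ g2 / 2 * (Real.log R - Real.log (xs L)) := by
        have h5 : m2 ≤ 2 * (L + 1) * ρ * g2 := by
          refine e4.trans ?_
          have : t ≤ 2 * g2 := by linarith
          calc (L + 1) * ρ * t ≤ (L + 1) * ρ * (2 * g2) := by gcongr
            _ = 2 * (L + 1) * ρ * g2 := by ring
        have h6 : ((k : ℝ) - 1) * m2 ≤ k * (2 * (L + 1) * ρ * g2) := by
          have hk1 : (0 : ℝ) ≤ (k : ℝ) - 1 := by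
            have : (1 : ℝ) ≤ k := by exact_mod_cast hk
            linarith
          calc ((k : ℝ) - 1) * m2 ≤ ((k : ℝ) - 1) * (2 * (L + 1) * ρ * g2) := by gcongr
            _ ≤ k * (2 * (L + 1) * ρ * g2) := by
                apply mul_le_mul_of_nonneg_right _ (by positivity)
                linarith
        have h7 : g2 / 2 * (k * (8 * L + 31) * ρ) ≤
            g2 / 2 * (Real.log R - Real.log (xs L)) := by gcongr
        have h8 : k * (2 * (L + 1) * ρ * g2) ≤ g2 / 2 * (k * (8 * L + 31) * ρ) := by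
          have h9 : g2 / 2 * (k * (8 * L + 31) * ρ) - k * (2 * (L + 1) * ρ * g2) =
              k * ρ * g2 * (2 * L + 27 / 2) := by ring
          have h10 : 0 ≤ k * ρ * g2 * (2 * (L : ℝ) + 27 / 2) := by positivity
          linarith
        linarith
      have h11 : ((k : ℝ) - 1) * (m2 * g2 ^ (k - 2)) = (((k : ℝ) - 1) * m2) * g2 ^ (k - 2) := by
        ring
      have h12 : g2 ^ (k - 2) * g2 / 2 * (Real.log R - Real.log (xs L)) =
          (g2 / 2 * (Real.log R - Real.log (xs L))) * g2 ^ (k - 2) := by ring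
      rw [h11, h12]
      apply mul_le_mul_of_nonneg_right h4
      positivity
    linarith
  refine ⟨Opt.yy (Opt.gtf xs L), Opt.yy_nonneg _ (Opt.gtf_nonneg xs L),
    Opt.yy_le_one _ (Opt.gtf_nonneg xs L) (Opt.gtf_le_one xs hmono L),
    Opt.yy_anti _ (Opt.gtf_nonneg xs L) (Opt.gtf_anti xs L),
    fun U hU => Opt.yy_supp _ U hU,
    yy_empty _ (Opt.gtf_one xs hmono L hxs0) hR1,
    EE_pos' _ hκ hWk (Opt.gtf_one xs hmono L hxs0) hR1, ?_⟩
  have e8 : k * (g1 ^ 2 * (g2 ^ (k - 1) / 2)) ≤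
      ∑ j : Fin k, EEj2 κ (Opt.yy (Opt.gtf xs L) (k := k) (W := W) (R := R)) j := by
    have h1 : ∑ j : Fin k, g1 ^ 2 * (g2 ^ (k - 1) / 2) ≤
        ∑ j : Fin k, EEj2 κ (Opt.yy (Opt.gtf xs L) (k := k) (W := W) (R := R)) j :=
      Finset.sum_le_sum (fun j _ => e6 j)
    rw [Finset.sum_const, Finset.card_univ, Fintype.card_fin, nsmul_eq_mul] at h1
    exact h1
  refine le_trans ?_ e8
  have hpow : g2 ^ k = g2 ^ (k - 1) * g2 := by
    rw [← pow_succ]
    congr 1
    omega
  calc (c * Real.log R * (L / 640)) * EE2 κ (Opt.yy (Opt.gtf xs L) (k := k) (W := W) (R := R))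
      ≤ (c * Real.log R * (L / 640)) * g2 ^ k := by gcongr
    _ = (8 * k * (L + 4) * t * (L / 640)) * g2 * g2 ^ (k - 1) := by
        rw [hclogR, hpow]; ring
    _ ≤ (8 * k * (L + 4) * t * (L / 640)) * (2 * t) * g2 ^ (k - 1) := by gcongr
    _ ≤ (k * (L * t / 4) ^ 2 / 2) * g2 ^ (k - 1) := by
        apply mul_le_mul_of_nonneg_right _ (by positivity)
        have h1 : (k * (L * t / 4) ^ 2 / 2) - (8 * k * (L + 4) * t * (L / 640)) * (2 * t) =
            k * t ^ 2 * L * (L - 16) / 160 := by ring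
        have h2 : 0 ≤ k * t ^ 2 * L * ((L : ℝ) - 16) / 160 := by
          have : (0 : ℝ) ≤ (L : ℝ) - 16 := by linarith
          positivity
        linarith
    _ ≤ (k * g1 ^ 2 / 2) * g2 ^ (k - 1) := by gcongr
    _ = k * (g1 ^ 2 * (g2 ^ (k - 1) / 2)) := by ring


/-- The optimisation statement with shift `k + 1`. -/
def OptimStatement2 : Prop :=
  ∀ k : ℕ, 2 ^ 16 ≤ k → ∀ V : ℕ, 0 < V → (∀ p : ℕ, p.Prime → p ≤ 4 * k → p ∣ V) →
    ∀ R : ℕ, Real.exp (16 * k * (Nat.log 2 k + 4) / ((Nat.totient V : ℝ) / V)) ≤ R →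
    ∃ y : Finset (QT V R × Fin k) → ℝ,
      (∀ U, 0 ≤ y U) ∧ (∀ U, y U ≤ 1) ∧ (∀ U V', U ⊆ V' → y V' ≤ y U) ∧
      (∀ U, R < nn U → y U = 0) ∧ y ∅ = 1 ∧ 0 < EE2 (k + 1) y ∧
      ((Nat.totient V : ℝ) / V * Real.log R * (Nat.log 2 k / 640)) * EE2 (k + 1) y ≤
        ∑ j : Fin k, EEj2 (k + 1) y j

theorem optim2 : OptimStatement2 := by
  intro k hk V hV hVk R hR
  exact optim_gen k (k + 1) hk (by omega) V hV
    (fun p hp hpk => hVk p hp (by have : 1 ≤ k := le_trans (by norm_num) hk; omega)) R hR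

end Pool.Agent.Helper9.Opt2
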