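import Mathlib
import Pool.Agent.Helper9.BE.Opt2
import Pool.Agent.Helper99.MT2.Statement2

/-! `optim2` in the form of helper99's interface file. -/

namespace Pool.Agent.Helper9.BE

theorem optim2 : Pool.Agent.Helper99.MT2.OptimStatement2 := by
  intro k hk κ hκ hκk W hW hWk R hR
  obtain ⟨y, h1, h2, h3, h4, h5, _, h7⟩ := Pool.Agent.Helper9.Opt2.optim_gen k κ hk hκ W hW
    (fun p hp hpk => hWk p hp (by omega)) R hR
  exact ⟨y, h1, h2, h3, h4, h5, h7⟩

end Pool.Agent.Helper9.BE
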